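import Pool.Agent.Lib_helper41.HE.VU
import Pool.Agent.Lib_helper68.HE.VS
import Pool.Agent.Lib_helper31.HE.VI

/-! Project HE (MP_b08f5f_an), block VU, final form. -/

set_option autoImplicit false

namespace Pool.Agent.Lib_helper12.HE

open MeasureTheory Filter Topology Set
open scoped ComplexConjugate ENNReal
open Pool.Agent.Lib_helper25.PV (Conf vel Motion centre inertia NC VFlow)

noncomputable section

theorem VU_upper (N : ℕ) (hN : 3 ≤ N) (s : ℝ) (hs0 : 0 ≤ s) (hs : s < 8 * Real.pi / (N - 2)) :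
    ∃ C > 0, ∃ b : ℕ, ∀ ρ : ℝ, 0 < ρ → ρ ≤ 1 → ∀ E : ℝ,
      sig N (Hi N E \ Clus N ρ) ≤ ENNReal.ofReal (C * (1 / ρ) ^ b * Real.exp (-(s * E))) :=
  VU_upper_of N hN (fun z hz _ _ hM hρ hρM hc => VS_star z hz hM hρ hρM hc)
    (fun _ hπ _ h0 h2 R => VI_integral hπ h0 h2 R) s hs0 hs

end

end Pool.Agent.Lib_helper12.HE
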