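import Pool.Agent.Lib_helper12.HE.Defs

/-! Project HE (MP_b08f5f_an), block VU: upper bound for the volume of the non clustered part. -/

set_option autoImplicit false

namespace Pool.Agent.Lib_helper12.HE

open MeasureTheory Filter Topology Set
open scoped ComplexConjugate ENNReal
open Pool.Agent.Lib_helper25.PV (Conf vel Motion centre inertia NC VFlow)

noncomputable section

theorem VU_norm_sq_sub (a b : ℂ) : ‖a - b‖ ^ 2 = ‖a‖ ^ 2 + ‖b‖ ^ 2 - 2 * (a * conj b).re := by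
  rw [← Complex.normSq_eq_norm_sq, ← Complex.normSq_eq_norm_sq, ← Complex.normSq_eq_norm_sq,
    Complex.normSq_sub]

theorem VU_pair_sum {ι : Type*} (F : Finset ι) (y : ι → ℂ) :
    ∑ i ∈ F, ∑ j ∈ F, ‖y i - y j‖ ^ 2 =
      2 * F.card * ∑ j ∈ F, ‖y j‖ ^ 2 - 2 * ‖∑ j ∈ F, y j‖ ^ 2 := by
  have h1 : ‖∑ j ∈ F, y j‖ ^ 2 = ∑ i ∈ F, ∑ j ∈ F, (y i * conj (y j)).re := by
    rw [← Complex.normSq_eq_norm_sq]
    have h2 : ((Complex.normSq (∑ j ∈ F, y j) : ℝ) : ℂ) = ∑ i ∈ F, ∑ j ∈ F, y i * conj (y j) := by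
      rw [← Complex.mul_conj, map_sum, Finset.sum_mul_sum]
    have h3 := congrArg Complex.re h2
    rw [Complex.ofReal_re] at h3
    rw [h3]
    simp only [Complex.re_sum]
  rw [h1]
  simp only [VU_norm_sq_sub, Finset.sum_sub_distrib, Finset.sum_add_distrib, Finset.sum_const,
    nsmul_eq_mul, ← Finset.mul_sum]
  ring

theorem VU_spread_le {N : ℕ} (hN : 3 ≤ N) {y : Conf N} (hy : y ∈ Gam N) {d : ℝ} (o : Fin N)
    (h : ∀ i, i ≠ o → ∀ j, j ≠ o → ‖y i - y j‖ ≤ d) :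
    spread o y ≤ N * d ^ 2 := by
  obtain ⟨-, hc, hr⟩ := hy
  have hNr : (3 : ℝ) ≤ N := by exact_mod_cast hN
  have hN0 : (0 : ℝ) < N := by linarith
  have hN1 : (0 : ℝ) < (N : ℝ) - 1 := by linarith
  have hsum : ∑ i, ‖y i‖ ^ 2 = N := by
    rw [div_eq_one_iff_eq hN0.ne'] at hr
    exact hr
  have hcard : ((Finset.univ.erase o).card : ℝ) = (N : ℝ) - 1 := by
    rw [Finset.card_erase_of_mem (Finset.mem_univ o), Finset.card_univ, Fintype.card_fin]
    rw [Nat.cast_sub (by omega)]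
    simp
  have h1 : ∑ j ∈ Finset.univ.erase o, ‖y j‖ ^ 2 = N - ‖y o‖ ^ 2 := by
    have := Finset.add_sum_erase Finset.univ (fun j => ‖y j‖ ^ 2) (Finset.mem_univ o)
    linarith
  have h2 : ∑ j ∈ Finset.univ.erase o, y j = - y o := by
    have := Finset.add_sum_erase Finset.univ y (Finset.mem_univ o)
    rw [hc] at this
    linear_combination this
  have h3 := VU_pair_sum (Finset.univ.erase o) y
  rw [h1, h2, hcard, norm_neg] at h3
  have h4 : ∑ i ∈ Finset.univ.erase o, ∑ j ∈ Finset.univ.erase o, ‖y i - y j‖ ^ 2 ≤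
      ((N : ℝ) - 1) * (((N : ℝ) - 1) * d ^ 2) := by
    calc ∑ i ∈ Finset.univ.erase o, ∑ j ∈ Finset.univ.erase o, ‖y i - y j‖ ^ 2
        ≤ ∑ _i ∈ Finset.univ.erase o, ∑ _j ∈ Finset.univ.erase o, d ^ 2 := by
          refine Finset.sum_le_sum fun i hi => Finset.sum_le_sum fun j hj => ?_
          exact pow_le_pow_left₀ (norm_nonneg _)
            (h i (Finset.ne_of_mem_erase hi) j (Finset.ne_of_mem_erase hj)) 2
      _ = _ := by simp only [Finset.sum_const, nsmul_eq_mul, hcard]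
  have h5 : 2 * ((N : ℝ) - 1) * spread o y =
      2 * ((N : ℝ) - 1) * (N - ‖y o‖ ^ 2) - 2 * ‖y o‖ ^ 2 := by
    unfold spread
    field_simp
    ring
  rw [← h5] at h3
  rw [h3] at h4
  have h6 : 0 ≤ d ^ 2 := by positivity
  have h7 : 2 * spread o y ≤ ((N : ℝ) - 1) * d ^ 2 := by
    by_contra hcon
    push Not at hcon
    nlinarith
  nlinarith

/-- `N - 1` vortices cannot all be close when `spread o y` is large -/
theorem VU_far {N : ℕ} (hN : 3 ≤ N) {y : Conf N} (hy : y ∈ Gam N) {ρ : ℝ} (hρ : 0 < ρ)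
    (h : ¬ ∃ o, spread o y ≤ ρ ^ 2) (S : Finset (Fin N)) (hS : N - 2 < S.card) :
    ∃ i ∈ S, ∃ j ∈ S, ρ / N ≤ ‖y i - y j‖ := by
  by_contra hcon
  push Not at hcon
  have hNr : (3 : ℝ) ≤ N := by exact_mod_cast hN
  have : Nonempty (Fin N) := ⟨⟨0, by omega⟩⟩
  obtain ⟨o, ho⟩ : ∃ o : Fin N, ∀ i, i ≠ o → i ∈ S := by
    have hc : (Finset.univ \ S).card ≤ 1 := by
      rw [Finset.card_sdiff_of_subset (Finset.subset_univ S), Finset.card_univ, Fintype.card_fin]
      omega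
    rcases Finset.card_le_one_iff_subset_singleton.1 hc with ⟨o, ho⟩
    refine ⟨o, fun i hi => ?_⟩
    by_contra hiS
    exact hi (Finset.mem_singleton.1 (ho (Finset.mem_sdiff.2 ⟨Finset.mem_univ i, hiS⟩)))
  refine h ⟨o, ?_⟩
  have h1 := VU_spread_le hN hy (d := ρ / N) o
    fun i hi j hj => (hcon i (ho i hi) j (ho j hj)).le
  refine h1.trans ?_
  rw [div_pow, mul_div_assoc', div_le_iff₀ (by positivity)]
  have : 0 < ρ ^ 2 := by positivity
  nlinarith [mul_nonneg this.le (show (0 : ℝ) ≤ (N : ℝ) * ((N : ℝ) - 1) by nlinarith)]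

/-- the product over the pairs -/
def VU_P {N : ℕ} (M : ℝ) (y : Conf N) : ℝ :=
  ∏ i, ∏ j ∈ Finset.univ.erase i, (M / ‖y i - y j‖)

theorem VU_P_pos {N : ℕ} {M : ℝ} (hM : 0 < M) {y : Conf N} (hy : Function.Injective y) :
    0 < VU_P M y := by
  unfold VU_P
  refine Finset.prod_pos fun i _ => Finset.prod_pos fun j hj => ?_
  have : y i - y j ≠ 0 := sub_ne_zero.2 fun h => Finset.ne_of_mem_erase hj (hy h).symm
  have := norm_pos_iff.2 this
  positivity

/-- the exponential of the energy -/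
theorem VU_exp_ham {N : ℕ} {M s : ℝ} (hM : 1 ≤ M) (hs : 0 ≤ s) {y : Conf N}
    (hy : Function.Injective y) :
    Real.exp (s * ham y) ≤ VU_P M y ^ (s / (4 * Real.pi)) := by
  have hP := VU_P_pos (N := N) (lt_of_lt_of_le one_pos hM) hy
  have hσ : 0 ≤ s / (4 * Real.pi) := by positivity
  rw [Real.rpow_def_of_pos hP]
  rw [Real.exp_le_exp]
  have hlog : Real.log (VU_P M y) = ∑ i, ∑ j ∈ Finset.univ.erase i, Real.log (M / ‖y i - y j‖) := by
    unfold VU_P
    rw [Real.log_prod]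
    · refine Finset.sum_congr rfl fun i _ => ?_
      rw [Real.log_prod]
      intro j hj
      have : y i - y j ≠ 0 := sub_ne_zero.2 fun h => Finset.ne_of_mem_erase hj (hy h).symm
      have := norm_pos_iff.2 this
      positivity
    · intro i _
      refine Finset.prod_ne_zero_iff.2 fun j hj => ?_
      have : y i - y j ≠ 0 := sub_ne_zero.2 fun h => Finset.ne_of_mem_erase hj (hy h).symm
      have := norm_pos_iff.2 this
      positivity
  rw [hlog]
  have h1 : ∑ i, ∑ j ∈ Finset.univ.erase i, (-Real.log ‖y i - y j‖) ≤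
      ∑ i, ∑ j ∈ Finset.univ.erase i, Real.log (M / ‖y i - y j‖) := by
    refine Finset.sum_le_sum fun i _ => Finset.sum_le_sum fun j hj => ?_
    have h0 : y i - y j ≠ 0 := sub_ne_zero.2 fun h => Finset.ne_of_mem_erase hj (hy h).symm
    have h0' := norm_pos_iff.2 h0
    rw [Real.log_div (by positivity) h0'.ne']
    have := Real.log_nonneg hM
    linarith
  have h2 : s * ham y = (∑ i, ∑ j ∈ Finset.univ.erase i, (-Real.log ‖y i - y j‖)) *
      (s / (4 * Real.pi)) := by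
    unfold ham
    simp only [Finset.sum_neg_distrib]
    field_simp
  rw [h2]
  exact mul_le_mul_of_nonneg_right h1 hσ

/-- the star function -/
def VU_star {N : ℕ} (π : Fin N → Fin N) (β : ℝ) (z : Conf N) : ℝ :=
  ∏ j, (if π j = j then 1 else ‖z j - z (π j)‖ ^ (-β))

theorem VU_star_nonneg {N : ℕ} (π : Fin N → Fin N) (β : ℝ) (z : Conf N) : 0 ≤ VU_star π β z := by
  unfold VU_star
  refine Finset.prod_nonneg fun j _ => ?_
  by_cases h : π j = j
  · rw [if_pos h]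
    exact zero_le_one
  · rw [if_neg h]
    exact Real.rpow_nonneg (norm_nonneg _) _

/-- the pointwise bound for normalised configurations -/
theorem VU_point {N : ℕ} (hN : 3 ≤ N)
    (hVS : ∀ (z : Conf N) (_ : Function.Injective z) (M ρ : ℝ),
      (∀ i j, ‖z i - z j‖ ≤ M) → 0 < ρ → ρ ≤ M →
      (∀ S : Finset (Fin N), N - 2 < S.card → ∃ i ∈ S, ∃ j ∈ S, N * ρ ≤ ‖z i - z j‖) →
      ∃ π : Fin N → Fin N, (∀ j, π (π j) = π j) ∧
        ∏ i, ∏ j ∈ Finset.univ.erase i, (M / ‖z i - z j‖) ≤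
          (M / ρ) ^ (N * N) * ∏ j, (if π j = j then 1 else (M / ‖z j - z (π j)‖) ^ (N - 2)))
    {s : ℝ} (hs : 0 ≤ s) {ρ : ℝ} (hρ : 0 < ρ) (hρ1 : ρ ≤ 1) {y : Conf N} (hy : y ∈ Gam N)
    (hfar : ¬ ∃ o, spread o y ≤ ρ ^ 2) {E : ℝ} (hE : E ≤ ham y) {r : ℝ} (hr1 : 1 ≤ r)
    (hr2 : r ≤ 2) {z : Conf N} (hz : ∀ i j, ‖z i - z j‖ = r * ‖y i - y j‖) :
    ∃ π : Fin N → Fin N, (∀ j, π (π j) = π j) ∧
      1 ≤ Real.exp (-(s * E)) *
        (((2 * Real.sqrt N * N ^ 2) ^ ((N * N : ℕ) * (s / (4 * Real.pi))) *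
          (1 / ρ) ^ ⌈((N * N : ℕ) : ℝ) * (s / (4 * Real.pi))⌉₊) *
          ((4 * Real.sqrt N) ^ (((N - 2 : ℕ) : ℝ) * (s / (4 * Real.pi)))) ^ N) *
        VU_star π (((N - 2 : ℕ) : ℝ) * (s / (4 * Real.pi))) z := by
  have hNr : (3 : ℝ) ≤ N := by exact_mod_cast hN
  have hN0 : (0 : ℝ) < N := by linarith
  set σ : ℝ := s / (4 * Real.pi) with hσ
  have hσ0 : 0 ≤ σ := by positivity
  set M : ℝ := 2 * Real.sqrt N with hM
  have hsq : (1 : ℝ) ≤ Real.sqrt N := by
    rw [Real.one_le_sqrt]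
    linarith
  have hM1 : 1 ≤ M := by
    rw [hM]
    linarith
  have hyi := hy.1
  have hsum : ∑ i, ‖y i‖ ^ 2 = N := by
    have := hy.2.2
    rw [div_eq_one_iff_eq hN0.ne'] at this
    exact this
  have hyn : ∀ i, ‖y i‖ ≤ Real.sqrt N := by
    intro i
    refine Real.le_sqrt_of_sq_le ?_
    rw [← hsum]
    exact Finset.single_le_sum (f := fun i => ‖y i‖ ^ 2) (fun j _ => by positivity)
      (Finset.mem_univ i)
  have hyM : ∀ i j, ‖y i - y j‖ ≤ M := by
    intro i j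
    refine (norm_sub_le _ _).trans ?_
    have := hyn i
    have := hyn j
    rw [hM]
    linarith
  have hρs : 0 < ρ / N ^ 2 := by positivity
  have hρM : ρ / N ^ 2 ≤ M := by
    rw [div_le_iff₀ (by positivity)]
    have : (1 : ℝ) ≤ N ^ 2 := by nlinarith
    nlinarith
  obtain ⟨π, hπ, hle⟩ := hVS y hyi M (ρ / N ^ 2) hyM hρs hρM fun S hS => by
    obtain ⟨i, hi, j, hj, hij⟩ := VU_far hN hy hρ hfar S hS
    refine ⟨i, hi, j, hj, le_trans (le_of_eq ?_) hij⟩
    field_simp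
  refine ⟨π, hπ, ?_⟩
  have hP := VU_P_pos (N := N) (M := M) (by linarith) hyi
  -- the exponential of the energy
  have h1 : 1 ≤ Real.exp (-(s * E)) * VU_P M y ^ σ := by
    have e1 : 1 ≤ Real.exp (-(s * E)) * Real.exp (s * ham y) := by
      rw [← Real.exp_add]
      apply Real.one_le_exp
      nlinarith
    exact e1.trans (mul_le_mul_of_nonneg_left (VU_exp_ham hM1 hs hyi) (Real.exp_pos _).le)
  -- the star bound
  have hne : ∀ j, π j ≠ j → 0 < ‖y j - y (π j)‖ := by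
    intro j hj
    exact norm_pos_iff.2 (sub_ne_zero.2 fun h => hj (hyi h).symm)
  set Q : ℝ := ∏ j, (if π j = j then 1 else (M / ‖y j - y (π j)‖) ^ (N - 2)) with hQ
  have hQ0 : 0 ≤ Q := by
    refine Finset.prod_nonneg fun j _ => ?_
    by_cases h : π j = j
    · rw [if_pos h]
      exact zero_le_one
    · rw [if_neg h]
      have := hne j h
      positivity
  have h2 : VU_P M y ^ σ ≤ ((M / (ρ / N ^ 2)) ^ (N * N)) ^ σ * Q ^ σ := by
    rw [← Real.mul_rpow (by positivity) hQ0]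
    exact Real.rpow_le_rpow hP.le hle hσ0
  have h3 : ((M / (ρ / N ^ 2)) ^ (N * N)) ^ σ ≤
      (2 * Real.sqrt N * N ^ 2) ^ ((N * N : ℕ) * σ) * (1 / ρ) ^ ⌈((N * N : ℕ) : ℝ) * σ⌉₊ := by
    rw [← Real.rpow_natCast (M / (ρ / N ^ 2)), ← Real.rpow_mul (by positivity)]
    have e1 : M / (ρ / N ^ 2) = (2 * Real.sqrt N * N ^ 2) * (1 / ρ) := by
      rw [hM]
      field_simp
    rw [e1, Real.mul_rpow (by positivity) (by positivity)]
    have e2 : (1 / ρ) ^ (((N * N : ℕ) : ℝ) * σ) ≤ (1 / ρ) ^ ⌈((N * N : ℕ) : ℝ) * σ⌉₊ := by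
      rw [← Real.rpow_natCast]
      refine Real.rpow_le_rpow_of_exponent_le ?_ (Nat.le_ceil _)
      rw [le_div_iff₀ hρ]
      linarith
    exact mul_le_mul_of_nonneg_left e2 (by positivity)
  have h4 : Q ^ σ ≤ ((4 * Real.sqrt N) ^ (((N - 2 : ℕ) : ℝ) * σ)) ^ N *
      VU_star π (((N - 2 : ℕ) : ℝ) * σ) z := by
    rw [hQ, ← Real.finsetProd_rpow]
    · unfold VU_star
      have e0 : ((4 * Real.sqrt N) ^ (((N - 2 : ℕ) : ℝ) * σ)) ^ N =
          ∏ _j : Fin N, (4 * Real.sqrt N) ^ (((N - 2 : ℕ) : ℝ) * σ) := by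
        rw [Finset.prod_const, Finset.card_univ, Fintype.card_fin]
      rw [e0, ← Finset.prod_mul_distrib]
      refine Finset.prod_le_prod (fun j _ => ?_) fun j _ => ?_
      · by_cases h : π j = j
        · rw [if_pos h]
          positivity
        · rw [if_neg h]
          positivity
      · have hbig : (1 : ℝ) ≤ (4 * Real.sqrt N) ^ (((N - 2 : ℕ) : ℝ) * σ) :=
          Real.one_le_rpow (by linarith) (by positivity)
        by_cases h : π j = j
        · rw [if_pos h, if_pos h, Real.one_rpow, mul_one]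
          exact hbig
        · rw [if_neg h, if_neg h]
          have hp := hne j h
          have hzp : 0 < ‖z j - z (π j)‖ := by
            rw [hz]
            positivity
          rw [← Real.rpow_natCast, ← Real.rpow_mul (by positivity), Real.rpow_neg hzp.le,
            ← div_eq_mul_inv, ← Real.div_rpow (by positivity) hzp.le]
          refine Real.rpow_le_rpow (by positivity) ?_ (by positivity)
          rw [hz, hM, div_le_div_iff₀ hp (by positivity)]
          have : 0 ≤ Real.sqrt N * ‖y j - y (π j)‖ := by positivity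
          nlinarith
    · intro j _
      by_cases h : π j = j
      · rw [if_pos h]
        exact zero_le_one
      · rw [if_neg h]
        positivity
  have hZ := VU_star_nonneg π (((N - 2 : ℕ) : ℝ) * σ) z
  have hE0 := (Real.exp_pos (-(s * E))).le
  calc 1 ≤ Real.exp (-(s * E)) * VU_P M y ^ σ := h1
    _ ≤ Real.exp (-(s * E)) * (((M / (ρ / N ^ 2)) ^ (N * N)) ^ σ * Q ^ σ) :=
        mul_le_mul_of_nonneg_left h2 hE0
    _ ≤ Real.exp (-(s * E)) * (((2 * Real.sqrt N * N ^ 2) ^ ((N * N : ℕ) * σ) *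
          (1 / ρ) ^ ⌈((N * N : ℕ) : ℝ) * σ⌉₊) *
          (((4 * Real.sqrt N) ^ (((N - 2 : ℕ) : ℝ) * σ)) ^ N *
            VU_star π (((N - 2 : ℕ) : ℝ) * σ) z)) := by
        refine mul_le_mul_of_nonneg_left ?_ hE0
        exact mul_le_mul h3 h4 (Real.rpow_nonneg hQ0 _) (by positivity)
    _ = _ := by ring

/-- the star function in `ℝ≥0∞` -/
def VU_estar {N : ℕ} (π : Fin N → Fin N) (β : ℝ) (z : Conf N) : ℝ≥0∞ :=
  ∏ j, (if π j = j then 1 else ENNReal.ofReal (‖z j - z (π j)‖ ^ (-β)))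

theorem VU_estar_eq {N : ℕ} (π : Fin N → Fin N) (β : ℝ) (z : Conf N) :
    VU_estar π β z = ENNReal.ofReal (VU_star π β z) := by
  unfold VU_estar VU_star
  rw [ENNReal.ofReal_prod_of_nonneg]
  · refine Finset.prod_congr rfl fun j _ => ?_
    by_cases h : π j = j
    · rw [if_pos h, if_pos h, ENNReal.ofReal_one]
    · rw [if_neg h, if_neg h]
  · intro j _
    by_cases h : π j = j
    · rw [if_pos h]
      exact zero_le_one
    · rw [if_neg h]
      exact Real.rpow_nonneg (norm_nonneg _) _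

theorem VU_estar_meas {N : ℕ} (π : Fin N → Fin N) (β : ℝ) :
    Measurable (VU_estar (N := N) π β) := by
  unfold VU_estar
  refine Finset.measurable_prod _ fun j _ => ?_
  by_cases h : π j = j
  · simp only [if_pos h]
    exact measurable_const
  · simp only [if_neg h]
    refine ENNReal.measurable_ofReal.comp ?_
    exact (((measurable_pi_apply j).sub (measurable_pi_apply (π j))).norm).pow_const _

theorem VU_upper_of (N : ℕ) (hN : 3 ≤ N)
    (hVS : ∀ (z : Conf N) (_ : Function.Injective z) (M ρ : ℝ),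
      (∀ i j, ‖z i - z j‖ ≤ M) → 0 < ρ → ρ ≤ M →
      (∀ S : Finset (Fin N), N - 2 < S.card → ∃ i ∈ S, ∃ j ∈ S, N * ρ ≤ ‖z i - z j‖) →
      ∃ π : Fin N → Fin N, (∀ j, π (π j) = π j) ∧
        ∏ i, ∏ j ∈ Finset.univ.erase i, (M / ‖z i - z j‖) ≤
          (M / ρ) ^ (N * N) * ∏ j, (if π j = j then 1 else (M / ‖z j - z (π j)‖) ^ (N - 2)))
    (hVI : ∀ (π : Fin N → Fin N), (∀ j, π (π j) = π j) → ∀ β : ℝ, 0 ≤ β → β < 2 → ∀ R : ℝ,
      ∫⁻ z in {z : Conf N | ∀ i, ‖z i‖ ≤ R},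
        ∏ j, (if π j = j then 1 else ENNReal.ofReal (‖z j - z (π j)‖ ^ (-β))) < ⊤)
    (s : ℝ) (hs0 : 0 ≤ s) (hs : s < 8 * Real.pi / (N - 2)) :
    ∃ C > 0, ∃ b : ℕ, ∀ ρ : ℝ, 0 < ρ → ρ ≤ 1 → ∀ E : ℝ,
      sig N (Hi N E \ Clus N ρ) ≤ ENNReal.ofReal (C * (1 / ρ) ^ b * Real.exp (-(s * E))) := by
  classical
  have hNr : (3 : ℝ) ≤ N := by exact_mod_cast hN
  have hN0 : (0 : ℝ) < N := by linarith
  have hN2 : ((N - 2 : ℕ) : ℝ) = (N : ℝ) - 2 := by
    rw [Nat.cast_sub (by omega)]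
    norm_num
  set σ : ℝ := s / (4 * Real.pi) with hσ
  have hσ0 : 0 ≤ σ := by positivity
  set β : ℝ := ((N - 2 : ℕ) : ℝ) * σ with hβ
  have hβ0 : 0 ≤ β := by positivity
  have hβ2 : β < 2 := by
    rw [hβ, hN2, hσ]
    have h2 : (0 : ℝ) < (N : ℝ) - 2 := by linarith
    rw [lt_div_iff₀ h2] at hs
    rw [mul_div_assoc', div_lt_iff₀ (by positivity)]
    linarith
  set R : ℝ := 1 + 2 * Real.sqrt N with hR
  set Box : Set (Conf N) := {z : Conf N | ∀ i, ‖z i‖ ≤ R} with hBox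
  set P : Finset (Fin N → Fin N) := Finset.univ.filter fun π => ∀ j, π (π j) = π j with hP
  set J : ℝ≥0∞ := ∑ π ∈ P, ∫⁻ z in Box, VU_estar π β z with hJ
  have hJt : J < ⊤ := by
    rw [hJ]
    refine ENNReal.sum_lt_top.2 fun π hπ => ?_
    exact hVI π (Finset.mem_filter.1 hπ).2 β hβ0 hβ2 R
  set K : ℝ := (2 * Real.sqrt N * N ^ 2) ^ ((N * N : ℕ) * σ) * ((4 * Real.sqrt N) ^ β) ^ N with hK
  have hK0 : 0 < K := by positivity
  refine ⟨K * J.toReal + 1, by positivity, ⌈((N * N : ℕ) : ℝ) * σ⌉₊, fun ρ hρ hρ1 E => ?_⟩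
  set b : ℕ := ⌈((N * N : ℕ) : ℝ) * σ⌉₊ with hb
  set c₀ : ℝ := Real.exp (-(s * E)) * (((2 * Real.sqrt N * N ^ 2) ^ ((N * N : ℕ) * σ) *
    (1 / ρ) ^ b) * ((4 * Real.sqrt N) ^ β) ^ N) with hc₀
  have hc0 : 0 ≤ c₀ := by positivity
  set G : Conf N → ℝ≥0∞ := fun z => ENNReal.ofReal c₀ * ∑ π ∈ P, VU_estar π β z with hG
  have hGm : Measurable G :=
    (Finset.measurable_sum _ fun π _ => VU_estar_meas π β).const_mul _
  have hBm : MeasurableSet Box := by
    rw [hBox, Set.ofPred_forall]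
    exact MeasurableSet.iInter fun i =>
      measurableSet_le (measurable_pi_apply i).norm measurable_const
  -- the set
  have hsub : {z : Conf N | z ∈ shell N 1 ∧ nrm z ∈ Hi N E \ Clus N ρ} ⊆
      {z | 1 ≤ G z} ∩ Box := by
    rintro z ⟨⟨hz1, hz2, hz3⟩, ⟨⟨hy, hE⟩, hcl⟩⟩
    have hr0 : 0 < rad z := by linarith
    have hfar : ¬ ∃ o, spread o (nrm z) ≤ ρ ^ 2 := fun h => hcl ⟨hy, h⟩
    have hdiff : ∀ i j, ‖z i - z j‖ = rad z * ‖nrm z i - nrm z j‖ := by
      intro i j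
      have e : nrm z i - nrm z j = ((rad z : ℝ) : ℂ)⁻¹ * (z i - z j) := by
        unfold nrm
        ring
      rw [e, norm_mul, norm_inv, Complex.norm_real, Real.norm_eq_abs, abs_of_pos hr0]
      field_simp
    have hsum : ∑ i, ‖nrm z i‖ ^ 2 = N := by
      have := hy.2.2
      rw [div_eq_one_iff_eq hN0.ne'] at this
      exact this
    have hyn : ∀ i, ‖nrm z i‖ ≤ Real.sqrt N := by
      intro i
      refine Real.le_sqrt_of_sq_le ?_
      rw [← hsum]
      exact Finset.single_le_sum (f := fun i => ‖nrm z i‖ ^ 2) (fun j _ => by positivity)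
        (Finset.mem_univ i)
    constructor
    · obtain ⟨π, hπ, hle⟩ := VU_point hN hVS hs0 hρ hρ1 hy hfar hE hz2 (by linarith) hdiff
      have h1 : 1 ≤ ENNReal.ofReal c₀ * VU_estar π β z := by
        rw [VU_estar_eq, ← ENNReal.ofReal_mul hc0, ← ENNReal.ofReal_one]
        exact ENNReal.ofReal_le_ofReal hle
      refine h1.trans ?_
      show ENNReal.ofReal c₀ * VU_estar π β z ≤ ENNReal.ofReal c₀ * ∑ π ∈ P, VU_estar π β z
      gcongr
      exact Finset.single_le_sum (f := fun π => VU_estar π β z) (fun _ _ => zero_le)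
        (Finset.mem_filter.2 ⟨Finset.mem_univ π, hπ⟩)
    · intro i
      have e : z i = centre z + (rad z : ℂ) * nrm z i := by
        unfold nrm
        have : (rad z : ℂ) ≠ 0 := by exact_mod_cast hr0.ne'
        field_simp
        ring
      calc ‖z i‖ = ‖centre z + (rad z : ℂ) * nrm z i‖ := by rw [← e]
        _ ≤ ‖centre z‖ + ‖(rad z : ℂ) * nrm z i‖ := norm_add_le _ _
        _ = ‖centre z‖ + rad z * ‖nrm z i‖ := by
            rw [norm_mul, Complex.norm_real, Real.norm_eq_abs, abs_of_pos hr0]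
        _ ≤ 1 + 2 * Real.sqrt N := by
            have h1 := hyn i
            have h2 : 0 ≤ ‖nrm z i‖ := norm_nonneg _
            have h3 : rad z ≤ 2 := by linarith
            have : rad z * ‖nrm z i‖ ≤ 2 * Real.sqrt N := mul_le_mul h3 h1 h2 (by norm_num)
            linarith
  have hmark : volume ({z | 1 ≤ G z} ∩ Box) ≤ ∫⁻ z in Box, G z := by
    have h1 := mul_meas_ge_le_lintegral (μ := (volume : Measure (Conf N)).restrict Box) hGm 1
    rw [one_mul, Measure.restrict_apply' hBm] at h1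
    exact h1
  have hint : ∫⁻ z in Box, G z = ENNReal.ofReal c₀ * J := by
    rw [hG, lintegral_const_mul _ (Finset.measurable_sum _ fun π _ => VU_estar_meas π β),
      lintegral_finsetSum _ fun π _ => VU_estar_meas π β]
  unfold sig
  calc volume {z | z ∈ shell N 1 ∧ nrm z ∈ Hi N E \ Clus N ρ}
      ≤ volume ({z | 1 ≤ G z} ∩ Box) := measure_mono hsub
    _ ≤ ∫⁻ z in Box, G z := hmark
    _ = ENNReal.ofReal c₀ * J := hint
    _ = ENNReal.ofReal c₀ * ENNReal.ofReal J.toReal := by rw [ENNReal.ofReal_toReal hJt.ne]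
    _ = ENNReal.ofReal (c₀ * J.toReal) := (ENNReal.ofReal_mul hc0).symm
    _ ≤ ENNReal.ofReal ((K * J.toReal + 1) * (1 / ρ) ^ b * Real.exp (-(s * E))) := by
        refine ENNReal.ofReal_le_ofReal ?_
        have e : c₀ * J.toReal = (K * J.toReal) * (1 / ρ) ^ b * Real.exp (-(s * E)) := by
          rw [hc₀, hK]
          ring
        rw [e]
        have h1 : 0 ≤ (1 / ρ) ^ b * Real.exp (-(s * E)) := by positivity
        nlinarith

end

end Pool.Agent.Lib_helper12.HE
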